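import Mathlib
import Pool.Agent.TH888.LF.Gold

set_option autoImplicit false

/-!
# Which sets of indices contain infinitely many Fibonacci type primes: the dichotomy

Let `φ = (1 + √5) / 2` and `ψ = (1 - √5) / 2`.  For real `c` and `β > 0` and a prime `p` let
`W c β p` be the `p`-rough part (the product, with multiplicity, of the prime factors larger than
`p`) of `⌊β φ ^ p + c ψ ^ p⌋`.  For a prime `p > 5` this is the Fibonacci number `F_p` at
`(c, β) = (-1/√5, 1/√5)` and the Lucas number `L_p` at `(c, β) = (1, 1)`.  We prove that for every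
real `c`, every set `S` and almost every `β > 0` the number `W c β p` is prime for infinitely many
primes `p` in `S` if and only if the sum of `log p / p` over the primes `p` in `S` diverges.
-/

namespace Pool.Agent.Results.MP_5893d7_nt.GoldenDichotomy

open Filter Topology MeasureTheory

/-- The product, with multiplicity, of the prime factors of `m` that are larger than `p`. -/
def roughPart (p m : ℕ) : ℕ := (m.primeFactorsList.filter (fun r => p < r)).prod

/-- The `p`-rough part of `⌊β φ ^ p + c ψ ^ p⌋`. -/
noncomputable def W (c β : ℝ) (p : ℕ) : ℕ :=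
  roughPart p ⌊β * Real.goldenRatio ^ p + c * Real.goldenConj ^ p⌋₊

/-- The Lucas numbers. -/
def lucas : ℕ → ℕ
  | 0 => 2
  | 1 => 1
  | (n + 2) => lucas (n + 1) + lucas n

lemma lucas_eq : ∀ n : ℕ, lucas n = Pool.Agent.H447R2.ML.V 1 n
  | 0 => rfl
  | 1 => rfl
  | (n + 2) => by
      show lucas (n + 1) + lucas n = 1 * Pool.Agent.H447R2.ML.V 1 (n + 1) + Pool.Agent.H447R2.ML.V 1 n
      rw [lucas_eq n, lucas_eq (n + 1), one_mul]

open Classical in
lemma div_iff (S : Set ℕ) : (¬ Summable (fun p : ℕ => if p.Prime ∧ p ∈ S then Real.log p / p else 0)) ↔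
    Tendsto (Pool.Agent.TH888.R.VS S) atTop atTop := by
  rw [not_summable_iff_tendsto_nat_atTop_of_nonneg]
  · rw [← tendsto_add_atTop_iff_nat 1]
    have e : (fun n : ℕ => ∑ p ∈ Finset.range (n + 1), if p.Prime ∧ p ∈ S then Real.log p / (p : ℝ) else 0) =
        Pool.Agent.TH888.R.VS S := by
      funext n
      unfold Pool.Agent.TH888.R.VS
      refine Finset.sum_congr rfl fun p _ => ?_
      by_cases h : p.Prime ∧ p ∈ S
      · rw [if_pos h, if_pos ⟨h.2, h.1⟩]
        rfl
      · rw [if_neg h, if_neg fun h1 => h ⟨h1.2, h1.1⟩]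
    rw [e]
  · intro p
    split_ifs
    · exact Pool.Agent.TH888.R.wt_nonneg p
    · exact le_rfl

open Classical in
/-- The Fibonacci and the Lucas numbers of prime index are special values, and for every `c`, every
set `S` and almost every `β`, with the base `φ` fixed, `W c β p` is prime for infinitely many primes
`p` in `S` if and only if the sum of `log p / p` over the primes in `S` diverges. -/
theorem result :
    (∀ p : ℕ, p.Prime → 5 < p → W (-(1 / Real.sqrt 5)) (1 / Real.sqrt 5) p = Nat.fib p ∧
      W 1 1 p = lucas p) ∧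
    (∀ c : ℝ, ∀ S : Set ℕ, ∀ᵐ β : ℝ, 0 < β →
      ({p : ℕ | p.Prime ∧ p ∈ S ∧ (W c β p).Prime}.Infinite ↔
        ¬ Summable (fun p : ℕ => if p.Prime ∧ p ∈ S then Real.log p / p else 0))) := by
  refine ⟨fun p hp h5 => ⟨Pool.Agent.TH888.LF.rough_fib hp h5, ?_⟩, fun c S => ?_⟩
  · rw [lucas_eq]
    exact Pool.Agent.TH888.LF.rough_luc hp h5
  · rw [div_iff]
    filter_upwards [Pool.Agent.TH888.LF.pt_gold c S] with β hβ h0
    have hp := hβ h0
    constructor
    · intro hi
      by_contra hn
      exact hi (hp.fin hn)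
    · exact hp.inf

end Pool.Agent.Results.MP_5893d7_nt.GoldenDichotomy
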