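import Mathlib
import Pool.Agent.TH888.LF.Gold

set_option autoImplicit false

/-!
# The asymptotic law for Fibonacci type primes with a square root error term

Let `φ = (1 + √5) / 2` and `ψ = (1 - √5) / 2`.  For real `c` and `β > 0` and a prime `p` let
`W c β p` be the `p`-rough part (the product, with multiplicity, of the prime factors larger than
`p`) of `⌊β φ ^ p + c ψ ^ p⌋`.  For a prime `p > 5` this is the Fibonacci number `F_p` at
`(c, β) = (-1/√5, 1/√5)` and the Lucas number `L_p` at `(c, β) = (1, 1)`.  We prove that for every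
real `c` and almost every `β > 0` the number of primes `p ≤ n` with `W c β p` prime is
`(e ^ γ / log φ) log n + O((log n) ^ (1/2) (log log n) ^ (5/2))`, and a corresponding law for the
primes in any given set of divergent weight.
-/

namespace Pool.Agent.Results.MP_5893d7_nt.GoldenRatioLaw

open Filter Topology MeasureTheory Asymptotics

/-- The product, with multiplicity, of the prime factors of `m` that are larger than `p`. -/
def roughPart (p m : ℕ) : ℕ := (m.primeFactorsList.filter (fun r => p < r)).prod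

/-- The `p`-rough part of `⌊β φ ^ p + c ψ ^ p⌋`. -/
noncomputable def W (c β : ℝ) (p : ℕ) : ℕ :=
  roughPart p ⌊β * Real.goldenRatio ^ p + c * Real.goldenConj ^ p⌋₊

/-- The Lucas numbers. -/
def lucas : ℕ → ℕ
  | 0 => 2
  | 1 => 1
  | (n + 2) => lucas (n + 1) + lucas n

open Classical in
/-- The number of primes `p ≤ n` in the set `S` for which `W c β p` is prime. -/
noncomputable def M (c : ℝ) (S : Set ℕ) (β : ℝ) (n : ℕ) : ℕ :=
  ((Finset.range (n + 1)).filter (fun p => p.Prime ∧ p ∈ S ∧ (W c β p).Prime)).card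

open Classical in
/-- The sum of `log p / p` over the primes `p ≤ n` in the set `S`. -/
noncomputable def V (S : Set ℕ) (n : ℕ) : ℝ :=
  ∑ p ∈ (Finset.range (n + 1)).filter (fun p => p.Prime ∧ p ∈ S), Real.log p / p

lemma V_eq (S : Set ℕ) (n : ℕ) : V S n = Pool.Agent.TH888.R.VS S n := by
  classical
  unfold V Pool.Agent.TH888.R.VS
  rw [Finset.sum_filter]
  refine Finset.sum_congr rfl fun p _ => ?_
  by_cases h : p.Prime ∧ p ∈ S
  · rw [if_pos h, if_pos ⟨h.2, h.1⟩]
    rfl
  · rw [if_neg h, if_neg fun h1 => h ⟨h1.2, h1.1⟩]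

lemma lucas_eq : ∀ n : ℕ, lucas n = Pool.Agent.H447R2.ML.V 1 n
  | 0 => rfl
  | 1 => rfl
  | (n + 2) => by
      show lucas (n + 1) + lucas n = 1 * Pool.Agent.H447R2.ML.V 1 (n + 1) + Pool.Agent.H447R2.ML.V 1 n
      rw [lucas_eq n, lucas_eq (n + 1), one_mul]

lemma M_eq (c : ℝ) (S : Set ℕ) (β : ℝ) (n : ℕ) : M c S β n = Pool.Agent.TH888.R.cS S
    (fun p => ⌊β * Real.goldenRatio ^ p + c * Real.goldenConj ^ p⌋₊) n := by
  classical
  unfold M Pool.Agent.TH888.R.cS
  rfl

/-- The Fibonacci and the Lucas numbers of prime index are special values; for every `c`, every set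
of primes of divergent weight and almost every `β`, with the base `φ` fixed, the law holds with a
square root error term, in particular for the set of all primes. -/
theorem result :
    (∀ p : ℕ, p.Prime → 5 < p → W (-(1 / Real.sqrt 5)) (1 / Real.sqrt 5) p = Nat.fib p ∧
      W 1 1 p = lucas p) ∧
    (∀ c : ℝ, ∀ᵐ β : ℝ, 0 < β →
      (fun n : ℕ => (M c Set.univ β n : ℝ) -
        Real.exp Real.eulerMascheroniConstant / Real.log Real.goldenRatio * Real.log n) =O[atTop]
      (fun n : ℕ => Real.sqrt (Real.log n) * (Real.log (Real.log n)) ^ ((5 : ℝ) / 2))) ∧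
    (∀ c : ℝ, ∀ S : Set ℕ, Tendsto (V S) atTop atTop → ∀ᵐ β : ℝ, 0 < β →
      (fun n : ℕ => (M c S β n : ℝ) -
        Real.exp Real.eulerMascheroniConstant / Real.log Real.goldenRatio * V S n) =O[atTop]
      (fun n : ℕ => Real.sqrt (V S n * Real.log (Real.log n)) *
        (Real.log (V S n * Real.log (Real.log n))) ^ 2)) := by
  have hV : ∀ S, V S = Pool.Agent.TH888.R.VS S := fun S => funext fun n => V_eq S n
  refine ⟨fun p hp h5 => ⟨Pool.Agent.TH888.LF.rough_fib hp h5, ?_⟩, fun c => ?_, fun c S hS => ?_⟩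
  · rw [lucas_eq]
    exact Pool.Agent.TH888.LF.rough_luc hp h5
  · filter_upwards [Pool.Agent.TH888.LF.pt_gold c Set.univ] with β hβ h0
    obtain ⟨B, hB, h⟩ := (hβ h0).law Pool.Agent.TH888.R.VS_univ_tendsto
    simp only [M_eq]
    exact Pool.Agent.TH888.R.bigO_all hB h
  · rw [hV] at hS ⊢
    filter_upwards [Pool.Agent.TH888.LF.pt_gold c S] with β hβ h0
    obtain ⟨B, hB, h⟩ := (hβ h0).law hS
    simp only [M_eq]
    exact Pool.Agent.TH888.R.bigO_set hB hS h

end Pool.Agent.Results.MP_5893d7_nt.GoldenRatioLaw
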