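import Mathlib
import Pool.Agent.TH888.C.Val
import Pool.Agent.TH888.LF.Gold

set_option autoImplicit false

/-!
# Fibonacci and Lucas numbers in the Lucas sequences with a real parameter

For a real parameter `x > 0` let `U x n` and `V x n` be the Lucas sequences
`u (n + 2) = x u (n + 1) + u n` with the initial values `0, 1` and `2, x`, the Fibonacci and the
Lucas polynomials at `x`; for `x = 1` they are the Fibonacci and the Lucas numbers.  For `u = U` or
`u = V`, a function `A` and a prime `p` let `W u A x p` be the `p`-rough part (the product, with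
multiplicity, of the prime factors larger than `p`) of `⌊A x * u x p⌋`.  If `A 1 = 1` then
`W u A 1 p` is the Fibonacci number `F_p`, respectively the Lucas number `L_p`, for every prime
`p > 5`.  For a set `S` let `M u A S x n` be the number of primes `p ≤ n` in `S` with `W u A x p`
prime, and let `Vt S n` be the sum of `log p / p` over the primes `p ≤ n` in `S`.  Let
`φ x = (x + √(x ^ 2 + 4)) / 2`.  We prove that for every positive `C ^ 2` function `A` and almost
every `x > 0` the number of primes `p ≤ n` with `W u A x p` prime is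
`(e ^ γ / log φ x) log n + O((log n) ^ (1/2) (log log n) ^ (5/2))`, that for every set `S` and almost
every `x > 0` there are infinitely many such primes `p` in `S` if and only if `Vt S n` is unbounded,
and that in this case the corresponding law holds.
-/

namespace Pool.Agent.Results.MP_5893d7_nt.LucasCurves

open Filter Topology MeasureTheory Asymptotics

/-- The product, with multiplicity, of the prime factors of `m` that are larger than `p`. -/
def roughPart (p m : ℕ) : ℕ := (m.primeFactorsList.filter (fun r => p < r)).prod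

/-- The Lucas sequence of the first kind (Fibonacci polynomials) at `x`. -/
noncomputable def U (x : ℝ) : ℕ → ℝ
  | 0 => 0
  | 1 => 1
  | (n + 2) => x * U x (n + 1) + U x n

/-- The Lucas sequence of the second kind (Lucas polynomials) at `x`. -/
noncomputable def V (x : ℝ) : ℕ → ℝ
  | 0 => 2
  | 1 => x
  | (n + 2) => x * V x (n + 1) + V x n

/-- The Lucas numbers. -/
def lucas : ℕ → ℕ
  | 0 => 2
  | 1 => 1
  | (n + 2) => lucas (n + 1) + lucas n

/-- The `p`-rough part of `⌊A x * u x p⌋`. -/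
noncomputable def W (u : ℝ → ℕ → ℝ) (A : ℝ → ℝ) (x : ℝ) (p : ℕ) : ℕ := roughPart p ⌊A x * u x p⌋₊

open Classical in
/-- The number of primes `p ≤ n` in the set `S` for which `W u A x p` is prime. -/
noncomputable def M (u : ℝ → ℕ → ℝ) (A : ℝ → ℝ) (S : Set ℕ) (x : ℝ) (n : ℕ) : ℕ :=
  ((Finset.range (n + 1)).filter (fun p => p.Prime ∧ p ∈ S ∧ (W u A x p).Prime)).card

open Classical in
/-- The sum of `log p / p` over the primes `p ≤ n` in the set `S`. -/
noncomputable def Vt (S : Set ℕ) (n : ℕ) : ℝ :=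
  ∑ p ∈ (Finset.range (n + 1)).filter (fun p => p.Prime ∧ p ∈ S), Real.log p / p

lemma Vt_eq (S : Set ℕ) (n : ℕ) : Vt S n = Pool.Agent.TH888.R.VS S n := by
  classical
  unfold Vt Pool.Agent.TH888.R.VS
  rw [Finset.sum_filter]
  refine Finset.sum_congr rfl fun p _ => ?_
  by_cases h : p.Prime ∧ p ∈ S
  · rw [if_pos h, if_pos ⟨h.2, h.1⟩]
    rfl
  · rw [if_neg h, if_neg fun h1 => h ⟨h1.2, h1.1⟩]

lemma U_eq (x : ℝ) : ∀ n : ℕ, U x n = Pool.Agent.W66C.lU x n
  | 0 => rfl
  | 1 => rfl
  | (n + 2) => by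
      show x * U x (n + 1) + U x n = x * Pool.Agent.W66C.lU x (n + 1) + Pool.Agent.W66C.lU x n
      rw [U_eq x n, U_eq x (n + 1)]

lemma V_eq (x : ℝ) : ∀ n : ℕ, V x n = Pool.Agent.W66C.lV x n
  | 0 => rfl
  | 1 => rfl
  | (n + 2) => by
      show x * V x (n + 1) + V x n = x * Pool.Agent.W66C.lV x (n + 1) + Pool.Agent.W66C.lV x n
      rw [V_eq x n, V_eq x (n + 1)]

lemma U_one : ∀ n : ℕ, U 1 n = (Nat.fib n : ℝ)
  | 0 => by simp [U]
  | 1 => by simp [U]
  | (n + 2) => by
      have e : U 1 (n + 2) = 1 * U 1 (n + 1) + U 1 n := rfl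
      rw [e, U_one n, U_one (n + 1), Nat.fib_add_two]
      push_cast
      ring

lemma V_one : ∀ n : ℕ, V 1 n = (lucas n : ℝ)
  | 0 => by simp [V, lucas]
  | 1 => by simp [V, lucas]
  | (n + 2) => by
      have e : V 1 (n + 2) = 1 * V 1 (n + 1) + V 1 n := rfl
      have e2 : lucas (n + 2) = lucas (n + 1) + lucas n := rfl
      rw [e, V_one n, V_one (n + 1), e2]
      push_cast
      ring

lemma lucas_eq : ∀ n : ℕ, lucas n = Pool.Agent.H447R2.ML.V 1 n
  | 0 => rfl
  | 1 => rfl
  | (n + 2) => by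
      show lucas (n + 1) + lucas n = 1 * Pool.Agent.H447R2.ML.V 1 (n + 1) + Pool.Agent.H447R2.ML.V 1 n
      rw [lucas_eq n, lucas_eq (n + 1), one_mul]

/-- The special values. -/
lemma special {A : ℝ → ℝ} (hA : A 1 = 1) {p : ℕ} (hp : p.Prime) (h5 : 5 < p) :
    W U A 1 p = Nat.fib p ∧ W V A 1 p = lucas p := by
  constructor
  · have h := Pool.Agent.TH888.LF.rough_fib hp h5
    have e : 1 / Real.sqrt 5 * Real.goldenRatio ^ p + -(1 / Real.sqrt 5) * Real.goldenConj ^ p =
        A 1 * U 1 p := by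
      rw [hA, U_one, Real.coe_fib_eq]
      ring
    rw [e] at h
    exact h
  · have h := Pool.Agent.TH888.LF.rough_luc hp h5
    have hs : Real.sqrt 5 ^ 2 = ((1 : ℕ) : ℝ) ^ 2 + 4 := by
      rw [Real.sq_sqrt (by norm_num)]
      norm_num
    have h2 := (Pool.Agent.H447R2.ML.closed 1 (s := Real.sqrt 5) (α := Real.goldenRatio)
      (ψ := Real.goldenConj) hs (by unfold Real.goldenRatio; norm_num)
      (by unfold Real.goldenConj; norm_num) p).2
    have e : 1 * Real.goldenRatio ^ p + 1 * Real.goldenConj ^ p = A 1 * V 1 p := by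
      rw [hA, V_one, lucas_eq, h2]
      ring
    rw [e] at h
    rw [lucas_eq]
    exact h

lemma M_eq (u : ℝ → ℕ → ℝ) (A : ℝ → ℝ) (S : Set ℕ) (x : ℝ) (n : ℕ) :
    M u A S x n = Pool.Agent.TH888.R.cS S (fun p => ⌊A x * u x p⌋₊) n := by
  classical
  unfold M Pool.Agent.TH888.R.cS
  rfl

lemma pt {u : ℝ → ℕ → ℝ} (hu : u = U ∨ u = V) {A : ℝ → ℝ} (hA : ContDiffOn ℝ 2 A (Set.Ioi 0))
    (hpos : ∀ x : ℝ, 0 < x → 0 < A x) (S : Set ℕ) : ∀ᵐ x : ℝ, 0 < x → Pool.Agent.TH888.R.Pt
      (fun p => ⌊A x * u x p⌋₊)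
      (Real.exp Real.eulerMascheroniConstant / Real.log ((x + Real.sqrt (x ^ 2 + 4)) / 2)) S := by
  rcases hu with rfl | rfl
  · simp only [U_eq]
    exact Pool.Agent.TH888.C.pt_U_curve S hA hpos
  · simp only [V_eq]
    exact Pool.Agent.TH888.C.pt_V_curve S hA hpos

/-- At `x = 1` the values are the Fibonacci and the Lucas numbers, and along every positive `C ^ 2`
curve of amplitudes the law holds with a square root error term for almost every parameter; for
every set of primes the number of prime values is finite or infinite according to the weight of the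
set, and in the second case it obeys the corresponding law. -/
theorem result :
    (∀ A : ℝ → ℝ, A 1 = 1 → ∀ p : ℕ, p.Prime → 5 < p →
      W U A 1 p = Nat.fib p ∧ W V A 1 p = lucas p) ∧
    (∀ u : ℝ → ℕ → ℝ, (u = U ∨ u = V) → ∀ A : ℝ → ℝ, ContDiffOn ℝ 2 A (Set.Ioi 0) →
      (∀ x : ℝ, 0 < x → 0 < A x) →
      (∀ᵐ x : ℝ, 0 < x →
        (fun n : ℕ => (M u A Set.univ x n : ℝ) -
          Real.exp Real.eulerMascheroniConstant / Real.log ((x + Real.sqrt (x ^ 2 + 4)) / 2) *
            Real.log n) =O[atTop]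
        (fun n : ℕ => Real.sqrt (Real.log n) * (Real.log (Real.log n)) ^ ((5 : ℝ) / 2))) ∧
      (∀ S : Set ℕ, Tendsto (Vt S) atTop atTop → ∀ᵐ x : ℝ, 0 < x →
        (fun n : ℕ => (M u A S x n : ℝ) -
          Real.exp Real.eulerMascheroniConstant / Real.log ((x + Real.sqrt (x ^ 2 + 4)) / 2) *
            Vt S n) =O[atTop]
        (fun n : ℕ => Real.sqrt (Vt S n * Real.log (Real.log n)) *
          (Real.log (Vt S n * Real.log (Real.log n))) ^ 2)) ∧
      (∀ S : Set ℕ, ∀ᵐ x : ℝ, 0 < x →
        ({p : ℕ | p.Prime ∧ p ∈ S ∧ (W u A x p).Prime}.Infinite ↔ Tendsto (Vt S) atTop atTop))) := by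
  have hV : ∀ S, Vt S = Pool.Agent.TH888.R.VS S := fun S => funext fun n => Vt_eq S n
  refine ⟨fun A hA p hp h5 => special hA hp h5, fun u hu A hA hpos => ⟨?_, fun S hS => ?_,
    fun S => ?_⟩⟩
  · filter_upwards [pt hu hA hpos Set.univ] with x hx h0
    obtain ⟨B, hB, h⟩ := (hx h0).law Pool.Agent.TH888.R.VS_univ_tendsto
    simp only [M_eq]
    exact Pool.Agent.TH888.R.bigO_all hB h
  · rw [hV] at hS ⊢
    filter_upwards [pt hu hA hpos S] with x hx h0
    obtain ⟨B, hB, h⟩ := (hx h0).law hS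
    simp only [M_eq]
    exact Pool.Agent.TH888.R.bigO_set hB hS h
  · rw [hV]
    filter_upwards [pt hu hA hpos S] with x hx h0
    constructor
    · intro hi
      by_contra hn
      exact hi ((hx h0).fin hn)
    · exact (hx h0).inf

end Pool.Agent.Results.MP_5893d7_nt.LucasCurves
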